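import Pool.Agent.MNT.StmtsA

set_option autoImplicit false

/-!
# MNT, row VLM: the bound in terms of the laminar family
-/

namespace Pool.Agent.MNT.H27

open Pool.Agent.MNT

section lev

variable {P : Type} [Fintype P] [DecidableEq P]

theorem lev_anti (Λ : Lam P) {s t : Finset P} (h : s ⊆ t) : Λ.lev t ≤ Λ.lev s := by
  unfold Lam.lev
  apply Finset.sum_le_sum_of_subset_of_nonneg
  · intro d hd
    rw [Finset.mem_filter] at hd ⊢
    exact ⟨hd.1, h.trans hd.2⟩
  · intro d hd hd'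
    rw [Finset.mem_filter] at hd
    refine (Λ.pos d hd.1 ?_).le
    rintro rfl
    exact hd' (Finset.mem_filter.2 ⟨hd.1, Finset.subset_univ _⟩)

theorem lev_pair (Λ : Lam P) {c d : Finset P} (hc : c ∈ Λ.V) (hd : d ∈ Λ.V)
    (hcd : Disjoint c d) {p q : P} (hp : p ∈ c) (hq : q ∈ d) :
    Λ.lev {p, q} = Λ.lev (c ∪ d) := by
  unfold Lam.lev
  congr 1
  ext e
  simp only [Finset.mem_filter]
  constructor
  · rintro ⟨he, hs⟩
    have hpe : p ∈ e := hs (by simp)
    have hqe : q ∈ e := hs (by simp)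
    refine ⟨he, Finset.union_subset ?_ ?_⟩
    · rcases Λ.lam c hc e he with h | h | h
      · exact h
      · exact absurd (h hqe) (fun hh => (Finset.disjoint_left.1 hcd hh) hq)
      · exact absurd hpe (Finset.disjoint_left.1 h hp)
    · rcases Λ.lam d hd e he with h | h | h
      · exact h
      · exact absurd (h hpe) (fun hh => (Finset.disjoint_left.1 hcd hp) hh)
      · exact absurd hqe (Finset.disjoint_left.1 h hq)
  · rintro ⟨he, hs⟩
    refine ⟨he, ?_⟩
    intro x hx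
    rw [Finset.mem_insert, Finset.mem_singleton] at hx
    rcases hx with rfl | rfl
    · exact hs (Finset.mem_union_left _ hp)
    · exact hs (Finset.mem_union_right _ hq)

theorem rep_nonneg (Λ : Lam P) {δ : P → P → ℝ} {e : ℝ} (h : Λ.Rep δ e) : 0 ≤ e := by
  have h2 := Λ.two_le _ Λ.top_mem
  obtain ⟨p, -, q, -, hpq⟩ := Finset.one_lt_card.1 (show 1 < (Finset.univ : Finset P).card by omega)
  exact (abs_nonneg _).trans (h p q hpq)

variable {E : Type} [Field E] (v : AbsoluteValue E ℝ) {z : P → E}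

theorem f1 (hz : Function.Injective z) (Λ : Lam P) {e₁ : ℝ} (hr : Λ.Rep (dis v z) e₁)
    {c d : Finset P} (hc : c ∈ Λ.V) (hd : d ∈ Λ.V) {p q : P} (hp : p ∈ c) (hq : q ∈ d) :
    -Real.log (max (max (Real.exp (-Λ.lev c)) (Real.exp (-Λ.lev d))) (v (z p - z q))) ≤
      Λ.lev (c ∪ d) + e₁ := by
  have he := rep_nonneg Λ hr
  have key : ∀ t : ℝ, Real.exp (-Λ.lev (c ∪ d) - e₁) ≤ t → -Real.log t ≤ Λ.lev (c ∪ d) + e₁ := by
    intro t ht
    have h1 := Real.log_le_log (Real.exp_pos _) ht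
    rw [Real.log_exp] at h1
    linarith
  apply key
  rcases Λ.lam c hc d hd with h | h | h
  · rw [Finset.union_eq_right.2 h]
    exact (Real.exp_le_exp.2 (by linarith)).trans ((le_max_right _ _).trans (le_max_left _ _))
  · rw [Finset.union_eq_left.2 h]
    exact (Real.exp_le_exp.2 (by linarith)).trans ((le_max_left _ _).trans (le_max_left _ _))
  · have hpq : p ≠ q := by
      rintro rfl
      exact Finset.disjoint_left.1 h hp hq
    refine le_trans ?_ (le_max_right _ _)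
    have h1 := (abs_le.1 (hr p q hpq)).2
    rw [lev_pair Λ hc hd h hp hq] at h1
    have h2 : 0 < v (z p - z q) := v.pos (sub_ne_zero.2 fun hh => hpq (hz hh))
    unfold dis at h1
    rw [← Real.exp_log h2]
    exact Real.exp_le_exp.2 (by linarith)

theorem f2 (hz : Function.Injective z) (Λ : Lam P) {e₁ : ℝ} (hr : Λ.Rep (dis v z) e₁)
    {c : Finset P} {p : P} (hp : p ∈ c) (x : P) :
    Real.log (max (Real.exp (-Λ.lev c)) (v (z x - z p))) ≤ -Λ.lev (insert x c) + e₁ := by
  have he := rep_nonneg Λ hr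
  have h0 : Λ.lev (insert x c) ≤ Λ.lev c := lev_anti Λ (Finset.subset_insert x c)
  have hpos : 0 < max (Real.exp (-Λ.lev c)) (v (z x - z p)) :=
    lt_max_of_lt_left (Real.exp_pos _)
  rw [← Real.log_exp (-Λ.lev (insert x c) + e₁)]
  apply Real.log_le_log hpos
  apply max_le
  · exact Real.exp_le_exp.2 (by linarith)
  · by_cases hx : x = p
    · subst hx
      rw [sub_self, map_zero]
      exact (Real.exp_pos _).le
    · have h1 := (abs_le.1 (hr x p hx)).1
      have h2 : 0 < v (z x - z p) := v.pos (sub_ne_zero.2 fun hh => hx (hz hh))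
      have h3 : Λ.lev (insert x c) ≤ Λ.lev {x, p} := by
        apply lev_anti
        intro y hy
        rw [Finset.mem_insert, Finset.mem_singleton] at hy
        rcases hy with rfl | rfl
        · exact Finset.mem_insert_self _ _
        · exact Finset.mem_insert_of_mem hp
      unfold dis at h1
      rw [← Real.exp_log h2]
      exact Real.exp_le_exp.2 (by linarith)

end lev

open scoped Classical in
theorem vlm : VbdStmt → VlmStmt := by
  intro hvbd E _ v c₀ hQ P _ _ R z hz Λ e₁ hr x Z hxZ e₂ hH μ hμ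
  obtain ⟨hμ0, hμ1, hμ2⟩ := hμ
  let J := {c : Finset P // c ∈ Λ.V ∧ Λ.Grd R c}
  have hch : ∀ j : J, ∃ p ∈ j.1, Harm v Z (z x) (z p) (Real.exp (-Λ.lev j.1)) e₂ :=
    fun j => hH j.1 j.2.1 j.2.2
  choose pc hpc1 hpc2 using hch
  have hsum : ∀ F : Finset P → ℝ, (∀ c ∈ Λ.V, μ c = 0 → F c = 0) →
      ∑ j : J, F j.1 = ∑ c ∈ Λ.V, F c := by
    intro F hF
    have h1 : ∑ c ∈ Λ.V.filter (fun c => Λ.Grd R c), F c = ∑ j : J, F j.1 :=
      Finset.sum_subtype _ (fun c => by rw [Finset.mem_filter]) F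
    rw [← h1]
    apply Finset.sum_filter_of_ne
    intro c hc hne
    exact hμ1 c hc fun h0 => hne (hF c hc h0)
  have hone : ∑ j : J, μ j.1 = 1 := by
    rw [hsum μ (fun c _ h => h), hμ2]
  have h1 := hvbd E v c₀ hQ J (fun j => z (pc j)) (fun j => Real.exp (-Λ.lev j.1))
    (fun j => Real.exp_pos _) (z x) Z hxZ e₂ hpc2 (fun j => μ j.1)
    (fun j => hμ0 j.1 j.2.1) hone
  refine h1.trans (mul_le_mul_of_nonneg_left ?_ (Nat.cast_nonneg _))
  have hEn : Λ.En μ x = ∑ j : J, ∑ k : J, μ j.1 * μ k.1 *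
      (Λ.lev (j.1 ∪ k.1) - Λ.lev (insert x j.1) - Λ.lev (insert x k.1)) := by
    unfold Lam.En
    rw [← hsum]
    · apply Finset.sum_congr rfl
      intro j _
      rw [← hsum (fun d => μ j.1 * μ d * (Λ.lev (j.1 ∪ d) - Λ.lev (insert x j.1) -
        Λ.lev (insert x d)))]
      intro d _ h0
      rw [h0, mul_zero, zero_mul]
    · intro c _ h0
      apply Finset.sum_eq_zero
      intro d _
      rw [h0, zero_mul, zero_mul]
  have h3 : ∑ j : J, ∑ k : J, μ j.1 * μ k.1 * (3 * e₁) = 3 * e₁ := by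
    have : ∀ j : J, ∑ k : J, μ j.1 * μ k.1 * (3 * e₁) = μ j.1 * (3 * e₁) := by
      intro j
      rw [← Finset.sum_mul, ← Finset.mul_sum, hone, mul_one]
    rw [Finset.sum_congr rfl fun j _ => this j, ← Finset.sum_mul, hone, one_mul]
  have h4 : ∑ j : J, ∑ k : J, μ j.1 * μ k.1 *
      (Real.log (max (Real.exp (-Λ.lev j.1)) (v (z x - z (pc j)))) +
        Real.log (max (Real.exp (-Λ.lev k.1)) (v (z x - z (pc k)))) -
        Real.log (max (max (Real.exp (-Λ.lev j.1)) (Real.exp (-Λ.lev k.1)))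
          (v (z (pc j) - z (pc k))))) ≤
      ∑ j : J, ∑ k : J, (μ j.1 * μ k.1 *
        (Λ.lev (j.1 ∪ k.1) - Λ.lev (insert x j.1) - Λ.lev (insert x k.1)) +
        μ j.1 * μ k.1 * (3 * e₁)) := by
    apply Finset.sum_le_sum
    intro j _
    apply Finset.sum_le_sum
    intro k _
    rw [← mul_add]
    apply mul_le_mul_of_nonneg_left _ (mul_nonneg (hμ0 j.1 j.2.1) (hμ0 k.1 k.2.1))
    have a1 := f1 v hz Λ hr j.2.1 k.2.1 (hpc1 j) (hpc1 k)
    have a2 := f2 v hz Λ hr (hpc1 j) x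
    have a3 := f2 v hz Λ hr (hpc1 k) x
    linarith
  have h5 : ∑ j : J, ∑ k : J, (μ j.1 * μ k.1 *
        (Λ.lev (j.1 ∪ k.1) - Λ.lev (insert x j.1) - Λ.lev (insert x k.1)) +
        μ j.1 * μ k.1 * (3 * e₁)) = Λ.En μ x + 3 * e₁ := by
    rw [hEn]
    refine Eq.trans ?_ (congrArg₂ (· + ·) rfl h3)
    rw [← Finset.sum_add_distrib]
    apply Finset.sum_congr rfl
    intro j _
    rw [← Finset.sum_add_distrib]
  linarith [h4, h5]

end Pool.Agent.MNT.H27
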